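import Pool.Agent.N71.EX.Stm
import Pool.Agent.N380.BI.PRD

/-!
# Project EX, part IDL: many distinct ideals `s * r₁ * r₂`
-/

set_option autoImplicit false

namespace Pool.Agent.N776.EX

open Finset Filter NumberField Pool.Agent.H38R2.CG Pool.Agent.N71.EX
open Pool.Agent.H38R2.CG.NFh (U mem_U card_U)
open scoped Classical

theorem card_U_rr {K : Type} [Field K] [NumberField K] {D : ℕ} (hD : IsFund D)
    (hK : Module.finrank ℚ K = 2) (hdisc : NumberField.discr K = (D : ℤ)) (n : ℕ) (hn : 1 ≤ n) :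
    ((U K n).card : ℝ) = rr D n :=
  Pool.Agent.N380.BI.card_U_eq hD hK hdisc n hn

/-- the ideals whose norm is in `A` -/
noncomputable def UU (K : Type) [Field K] [NumberField K] (A : Finset ℕ) :
    Finset (Ideal (𝓞 K)) := A.biUnion (U K)

theorem mem_UU {K : Type} [Field K] [NumberField K] {A : Finset ℕ} {I : Ideal (𝓞 K)} :
    I ∈ UU K A ↔ Ideal.absNorm I ∈ A := by
  unfold UU
  rw [Finset.mem_biUnion]
  constructor
  · rintro ⟨n, hn, h⟩
    rw [mem_U] at h
    rwa [h]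
  · intro h
    exact ⟨_, h, mem_U.2 rfl⟩

theorem card_UU {K : Type} [Field K] [NumberField K] (A : Finset ℕ) :
    (UU K A).card = ∑ n ∈ A, (U K n).card := by
  unfold UU
  rw [Finset.card_biUnion]
  intro a _ b _ hab
  refine Finset.disjoint_left.2 fun I h1 h2 => hab ?_
  rw [mem_U] at h1 h2
  exact h1.symm.trans h2

/-- the triples of ideals -/
noncomputable def TT (K : Type) [Field K] [NumberField K] (z S x₁ x₂ X : ℕ) :
    Finset ((Ideal (𝓞 K) × Ideal (𝓞 K)) × Ideal (𝓞 K)) :=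
  (((Finset.Icc 1 S).filter (Smooth z)) ×ˢ ((Finset.Ioc x₁ x₂).filter (Rough z))).biUnion
    fun q => (U K q.1 ×ˢ U K q.2) ×ˢ UU K ((Finset.Icc 1 (X / (q.1 * q.2))).filter (Rough z))

theorem mem_TT {K : Type} [Field K] [NumberField K] {z S x₁ x₂ X : ℕ}
    {t : (Ideal (𝓞 K) × Ideal (𝓞 K)) × Ideal (𝓞 K)} (ht : t ∈ TT K z S x₁ x₂ X) :
    1 ≤ Ideal.absNorm t.1.1 ∧ Ideal.absNorm t.1.1 ≤ S ∧ Smooth z (Ideal.absNorm t.1.1) ∧
    x₁ < Ideal.absNorm t.1.2 ∧ Ideal.absNorm t.1.2 ≤ x₂ ∧ Rough z (Ideal.absNorm t.1.2) ∧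
    1 ≤ Ideal.absNorm t.2 ∧ Rough z (Ideal.absNorm t.2) ∧
    Ideal.absNorm t.2 * (Ideal.absNorm t.1.1 * Ideal.absNorm t.1.2) ≤ X := by
  unfold TT at ht
  rw [Finset.mem_biUnion] at ht
  obtain ⟨⟨a, b⟩, hq, h⟩ := ht
  rw [Finset.mem_product, Finset.mem_filter, Finset.mem_filter, Finset.mem_Icc,
    Finset.mem_Ioc] at hq
  rw [Finset.mem_product, Finset.mem_product, mem_U, mem_U, mem_UU, Finset.mem_filter,
    Finset.mem_Icc] at h
  obtain ⟨⟨⟨h1, h2⟩, h3⟩, ⟨h4, h5⟩, h6⟩ := hq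
  obtain ⟨⟨h7, h8⟩, ⟨h9, h10⟩, h11⟩ := h
  simp only at h1 h2 h3 h4 h5 h6 h7 h8 h9 h10 h11
  have h12 := Nat.mul_le_of_le_div _ _ _ h10
  subst h7 h8
  exact ⟨h1, h2, h3, h4, h5, h6, h9, h11, h12⟩

theorem card_TT {K : Type} [Field K] [NumberField K] {D : ℕ} (hD : IsFund D)
    (hK : Module.finrank ℚ K = 2) (hdisc : NumberField.discr K = (D : ℤ)) (z S x₁ x₂ X : ℕ) :
    ((TT K z S x₁ x₂ X).card : ℝ) =
      ∑ s ∈ (Finset.Icc 1 S).filter (Smooth z), ∑ m ∈ (Finset.Ioc x₁ x₂).filter (Rough z),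
        rr D s * rr D m * RN D z (X / (s * m)) := by
  unfold TT
  rw [Finset.card_biUnion, Nat.cast_sum, Finset.sum_product]
  · refine Finset.sum_congr rfl fun s hs => Finset.sum_congr rfl fun m hm => ?_
    rw [Finset.mem_filter, Finset.mem_Icc] at hs
    rw [Finset.mem_filter, Finset.mem_Ioc] at hm
    rw [Finset.card_product, Finset.card_product, card_UU, Nat.cast_mul, Nat.cast_mul,
      Nat.cast_sum, card_U_rr hD hK hdisc s hs.1.1, card_U_rr hD hK hdisc m (by omega)]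
    unfold RN
    congr 1
    refine Finset.sum_congr rfl fun n hn => ?_
    rw [Finset.mem_filter, Finset.mem_Icc] at hn
    exact card_U_rr hD hK hdisc n hn.1.1
  · rintro ⟨a, b⟩ _ ⟨a', b'⟩ _ hab
    refine Finset.disjoint_left.2 fun I h1 h2 => hab ?_
    rw [Finset.mem_product, Finset.mem_product, mem_U, mem_U] at h1 h2
    simp only at h1 h2
    rw [Prod.mk.injEq]
    exact ⟨h1.1.1.symm.trans h2.1.1, h1.1.2.symm.trans h2.1.2⟩

theorem rough_mul {z a b : ℕ} (ha : Rough z a) (hb : Rough z b) : Rough z (a * b) := by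
  intro p hp h
  rcases (Nat.Prime.dvd_mul hp).1 h with h | h
  · exact ha p hp h
  · exact hb p hp h

theorem norm_prime {K : Type} [Field K] [NumberField K] {P : Ideal (𝓞 K)} (hP : Prime P) :
    ∃ p : ℕ, p.Prime ∧ p ∣ Ideal.absNorm P ∧ p ≤ Ideal.absNorm P := by
  have h1 : Ideal.absNorm P ≠ 1 := by
    rw [Ne, Ideal.absNorm_eq_one_iff]
    intro h
    exact hP.not_isUnit (Ideal.isUnit_iff.2 h)
  have h0 : Ideal.absNorm P ≠ 0 := by
    rw [Ne, Ideal.absNorm_eq_zero_iff]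
    exact hP.ne_zero
  refine ⟨(Ideal.absNorm P).minFac, Nat.minFac_prime h1, Nat.minFac_dvd _,
    Nat.minFac_le (Nat.pos_of_ne_zero h0)⟩

theorem coprime_of {K : Type} [Field K] [NumberField K] {z : ℕ} {s r : Ideal (𝓞 K)}
    (hs0 : s ≠ 0) (hs : Smooth z (Ideal.absNorm s)) (hr : Rough z (Ideal.absNorm r)) :
    IsRelPrime s r := by
  rw [UniqueFactorizationMonoid.isRelPrime_iff_no_prime_factors hs0]
  intro P h1 h2 hP
  obtain ⟨p, hp, hpd, -⟩ := norm_prime hP
  have h3 := hs p hp (hpd.trans (map_dvd Ideal.absNorm h1))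
  have h4 := hr p hp (hpd.trans (map_dvd Ideal.absNorm h2))
  omega

theorem pow_le_norm {K : Type} [Field K] [NumberField K] {z : ℕ} (M : Multiset (Ideal (𝓞 K)))
    (h : ∀ P ∈ M, z ≤ Ideal.absNorm P) : z ^ Multiset.card M ≤ Ideal.absNorm M.prod := by
  induction M using Multiset.induction with
  | empty => simp
  | cons P M ih =>
    rw [Multiset.card_cons, Multiset.prod_cons, map_mul, pow_succ, mul_comm]
    exact Nat.mul_le_mul (h P (Multiset.mem_cons_self _ _))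
      (ih fun Q hQ => h Q (Multiset.mem_cons_of_mem hQ))

open UniqueFactorizationMonoid in
/-- the number of divisors of an ideal of rough norm -/
theorem card_dvd {K : Type} [Field K] [NumberField K] {z k X : ℕ} (hz : 2 ≤ z)
    (hX : X < z ^ (k + 1)) {r : Ideal (𝓞 K)} (hr0 : r ≠ 0) (hr : Rough z (Ideal.absNorm r))
    (hrX : Ideal.absNorm r ≤ X) (G : Finset (Ideal (𝓞 K))) (hG : ∀ a ∈ G, a ∣ r) :
    G.card ≤ 2 ^ k := by
  have ht : Multiset.card (normalizedFactors r) ≤ k := by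
    have h1 : z ^ Multiset.card (normalizedFactors r) ≤ Ideal.absNorm r := by
      have h2 := pow_le_norm (z := z) (normalizedFactors r) (fun P hP => by
        have hPp := prime_of_normalized_factor P hP
        obtain ⟨p, hp, hpd, hple⟩ := norm_prime hPp
        have h3 := hr p hp (hpd.trans (map_dvd Ideal.absNorm (dvd_of_mem_normalizedFactors hP)))
        omega)
      rwa [Ideal.prod_normalizedFactors_eq_self hr0] at h2
    have h3 : z ^ Multiset.card (normalizedFactors r) < z ^ (k + 1) := by omega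
    have := (Nat.pow_lt_pow_iff_right (by omega : 1 < z)).1 h3
    omega
  calc G.card ≤ (Multiset.powerset (normalizedFactors r)).toFinset.card := by
        apply Finset.card_le_card_of_injOn (fun a => normalizedFactors a)
        · intro a ha
          rw [Finset.mem_coe, Multiset.mem_toFinset, Multiset.mem_powerset]
          have hd := hG a ha
          have ha0 : a ≠ 0 := ne_zero_of_dvd_ne_zero hr0 hd
          exact (dvd_iff_normalizedFactors_le_normalizedFactors ha0 hr0).1 hd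
        · intro a ha b hb hab
          have ha0 : a ≠ 0 := ne_zero_of_dvd_ne_zero hr0 (hG a ha)
          have hb0 : b ≠ 0 := ne_zero_of_dvd_ne_zero hr0 (hG b hb)
          simp only at hab
          rw [← Ideal.prod_normalizedFactors_eq_self ha0,
            ← Ideal.prod_normalizedFactors_eq_self hb0, hab]
    _ ≤ Multiset.card (Multiset.powerset (normalizedFactors r)) := Multiset.toFinset_card_le _
    _ = 2 ^ Multiset.card (normalizedFactors r) := Multiset.card_powerset _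
    _ ≤ 2 ^ k := Nat.pow_le_pow_right (by norm_num) ht

theorem ne_zero_of_norm {K : Type} [Field K] [NumberField K] {I : Ideal (𝓞 K)}
    (h : 1 ≤ Ideal.absNorm I) : I ≠ 0 := Pool.Agent.N380.BI.ne_bot_of_norm h

theorem fib {K : Type} [Field K] [NumberField K] {z k S x₁ x₂ X : ℕ} (hz : 2 ≤ z)
    (hX : X < z ^ (k + 1)) (A : Ideal (𝓞 K)) :
    ((TT K z S x₁ x₂ X).filter fun t => t.1.1 * t.1.2 * t.2 = A).card ≤ 2 ^ k := by
  rcases ((TT K z S x₁ x₂ X).filter fun t => t.1.1 * t.1.2 * t.2 = A).eq_empty_or_nonempty with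
    he | ⟨t₀, ht₀⟩
  · rw [he, Finset.card_empty]
    positivity
  rw [Finset.mem_filter] at ht₀
  obtain ⟨ht₀, hA₀⟩ := ht₀
  obtain ⟨a1, a2, a3, a4, a5, a6, a7, a8, a9⟩ := mem_TT ht₀
  have hs0 : t₀.1.1 ≠ 0 := ne_zero_of_norm a1
  have hr10 : t₀.1.2 ≠ 0 := ne_zero_of_norm (by omega)
  have hr20 : t₀.2 ≠ 0 := ne_zero_of_norm a7
  set r := t₀.1.2 * t₀.2 with hr
  have hr0 : r ≠ 0 := mul_ne_zero hr10 hr20
  have hrr : Rough z (Ideal.absNorm r) := by
    rw [hr, map_mul]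
    exact rough_mul a6 a8
  have hrX : Ideal.absNorm r ≤ X := by
    rw [hr, map_mul]
    calc Ideal.absNorm t₀.1.2 * Ideal.absNorm t₀.2
        = Ideal.absNorm t₀.2 * (1 * Ideal.absNorm t₀.1.2) := by ring
      _ ≤ Ideal.absNorm t₀.2 * (Ideal.absNorm t₀.1.1 * Ideal.absNorm t₀.1.2) := by gcongr
      _ ≤ X := a9
  have key : ∀ t ∈ (TT K z S x₁ x₂ X).filter fun t => t.1.1 * t.1.2 * t.2 = A,
      t.1.1 = t₀.1.1 ∧ t.1.2 * t.2 = r := by
    intro t ht
    rw [Finset.mem_filter] at ht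
    obtain ⟨ht, hA⟩ := ht
    obtain ⟨b1, b2, b3, b4, b5, b6, b7, b8, b9⟩ := mem_TT ht
    have hs0' : t.1.1 ≠ 0 := ne_zero_of_norm b1
    have he : t.1.1 * (t.1.2 * t.2) = t₀.1.1 * r := by
      rw [hr, ← mul_assoc, ← mul_assoc, hA, hA₀]
    have hrr' : Rough z (Ideal.absNorm (t.1.2 * t.2)) := by
      rw [map_mul]
      exact rough_mul b6 b8
    have d1 : t.1.1 ∣ t₀.1.1 := by
      have h1 : t.1.1 ∣ t₀.1.1 * r := he ▸ Dvd.intro _ rfl
      exact (coprime_of hs0' b3 hrr).dvd_of_dvd_mul_right h1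
    have d2 : t₀.1.1 ∣ t.1.1 := by
      have h1 : t₀.1.1 ∣ t.1.1 * (t.1.2 * t.2) := he ▸ Dvd.intro _ rfl
      exact (coprime_of hs0 a3 hrr').dvd_of_dvd_mul_right h1
    have h2 : t.1.1 = t₀.1.1 := dvd_antisymm d1 d2
    refine ⟨h2, ?_⟩
    rw [h2] at he
    exact mul_left_cancel₀ hs0 he
  calc ((TT K z S x₁ x₂ X).filter fun t => t.1.1 * t.1.2 * t.2 = A).card
      = (((TT K z S x₁ x₂ X).filter fun t => t.1.1 * t.1.2 * t.2 = A).image
          fun t => t.1.2).card := by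
        rw [Finset.card_image_of_injOn]
        rintro ⟨⟨s, p⟩, q⟩ ht ⟨⟨s', p'⟩, q'⟩ ht' h
        simp only at h
        subst h
        obtain ⟨h1, h2⟩ := key _ ht
        obtain ⟨h3, h4⟩ := key _ ht'
        simp only at h1 h2 h3 h4
        have hp0 : p ≠ 0 := by
          intro h0
          apply hr0
          rw [← h2, h0, zero_mul]
        have h5 : q = q' := mul_left_cancel₀ hp0 (h2.trans h4.symm)
        rw [h1, h3, h5]
    _ ≤ 2 ^ k := by
        refine card_dvd hz hX hr0 hrr hrX _ fun a ha => ?_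
        rw [Finset.mem_image] at ha
        obtain ⟨t, ht, rfl⟩ := ha
        rw [← (key t ht).2]
        exact Dvd.intro _ rfl

theorem t_IDL : E_IDL := by
  intro K _ _ D hD hK hdisc z k S x₁ x₂ X hz hx₁ hX
  refine ⟨(TT K z S x₁ x₂ X).image fun t => t.1.1 * t.1.2 * t.2, ?_, ?_⟩
  · intro A hA
    rw [Finset.mem_image] at hA
    obtain ⟨t, ht, rfl⟩ := hA
    obtain ⟨a1, a2, a3, a4, a5, a6, a7, a8, a9⟩ := mem_TT ht
    refine ⟨?_, ?_, t.1.1 * t.1.2, t.2, rfl, ?_, ?_⟩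
    · exact mul_ne_zero (mul_ne_zero (ne_zero_of_norm a1) (ne_zero_of_norm (by omega)))
        (ne_zero_of_norm a7)
    · rw [map_mul, map_mul]
      calc Ideal.absNorm t.1.1 * Ideal.absNorm t.1.2 * Ideal.absNorm t.2
          = Ideal.absNorm t.2 * (Ideal.absNorm t.1.1 * Ideal.absNorm t.1.2) := by ring
        _ ≤ X := a9
    · rw [map_mul]
      exact Nat.mul_le_mul a2 a5
    · refine le_trans (Nat.mul_le_mul_left _ ?_) a9
      calc x₁ ≤ 1 * Ideal.absNorm t.1.2 := by omega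
        _ ≤ _ := Nat.mul_le_mul_right _ a1
  · rw [← card_TT hD hK hdisc]
    have h := Finset.card_le_mul_card_image
      (f := fun t : (Ideal (𝓞 K) × Ideal (𝓞 K)) × Ideal (𝓞 K) => t.1.1 * t.1.2 * t.2)
      (TT K z S x₁ x₂ X) (2 ^ k) (fun A _ => fib hz hX A)
    exact_mod_cast h

end Pool.Agent.N776.EX
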